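import Pool.Agent.Lib.MP_b5021c_nt.E.H79.Evm
import Pool.Agent.Lib.MP_b5021c_nt.E.H79.Evp

/-!
# Board b5, stage 3, chapter EV: row TAB (helper47)
-/

namespace Pool.Agent.B5.EV47

open Pool.Agent.B5
open Pool.Agent.MP_b5021c_nt (Eis)

/-- The values of `Bev` up to 36. -/
def bl : List ℕ := [0, 1, 2, 3, 4, 4, 4, 5, 5, 6, 6, 6, 7, 7, 7, 7, 8, 8, 8, 8, 8, 9, 9, 9, 9, 10, 10,
  10, 10, 10, 10, 11, 11, 11, 11, 11, 12]

theorem bl_eq : ∀ n < 37, Bev n = bl.getD n 0 := by
  decide +kernel

/-- The part of the table for `n`, `m`, `w`. -/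
def chk3 (n m w : ℕ) : Bool :=
  (List.range (w + 1)).all fun nb =>
    !(decide (w % nb = 0) && (decide (nb = 1) || decide (3 ≤ nb))) ||
      decide ((n - m) * (n - m) < (max 1 (bl.getD n 0 - (if nb = 1 then 0 else bl.getD nb 0))) *
        (max 1 (bl.getD n 0 - (if nb = 1 then 0 else bl.getD nb 0))) * nb * w)

/-- The residues of norms. -/
def rs (n : ℕ) : Bool := decide (n % 3 ≠ 2) && decide (n % 4 ≠ 2)

/-- The table. -/
def chk : Bool :=
  (List.range 37).all fun n => !(rs n) || (List.range n).all fun m =>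
    !(rs m && decide (n ≤ 3 * m)) || (List.range (n + 1)).all fun w =>
      !(rs w && decide (n * m ≤ (n + m - w) * (n + m - w)) &&
        decide ((n + m - w) * (n + m - w) ≤ 4 * (n * m))) ||
        (chk3 n m w || (decide (n = 7) && decide (m = 3)) ||
          (decide (n = 19) && decide (m = 7) && decide (w = 12)))

theorem chk_true : chk = true := by decide +kernel

theorem or_mp {a b : Bool} (h : (!a || b) = true) (ha : a = true) : b = true := by
  rw [ha] at h
  simpa using h

theorem tab {n m w nb t : ℕ} (hn : n < 37) (hm : m < n) (hnm : n ≤ 3 * m) (hw : w ≤ n)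
    (rn : n % 3 ≠ 2 ∧ n % 4 ≠ 2) (rm : m % 3 ≠ 2 ∧ m % 4 ≠ 2) (rw' : w % 3 ≠ 2 ∧ w % 4 ≠ 2)
    (h1 : n * m ≤ (n + m - w) * (n + m - w)) (h2 : (n + m - w) * (n + m - w) ≤ 4 * (n * m))
    (hnb : nb = 1 ∨ 3 ≤ nb) (hdvd : w % nb = 0) (hnbw : nb ≤ w) (ht : 1 ≤ t)
    (h3 : t * t * nb * w ≤ (n - m) * (n - m)) :
    1 + t + Bbg nb ≤ Bev n ∨ (n = 7 ∧ m = 3) ∨ (n = 19 ∧ m = 7 ∧ w = 12) := by
  have hc := chk_true
  unfold chk at hc
  have h4 := or_mp (List.all_eq_true.mp hc n (List.mem_range.mpr hn)) (by simp [rs, rn.1, rn.2])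
  have h5 := or_mp (List.all_eq_true.mp h4 m (List.mem_range.mpr hm))
    (by simp [rs, rm.1, rm.2, hnm])
  have h6 := or_mp (List.all_eq_true.mp h5 w (List.mem_range.mpr (by omega)))
    (by simp [rs, rw'.1, rw'.2, h1, h2])
  rw [Bool.or_eq_true, Bool.or_eq_true] at h6
  rcases h6 with (h6 | h6) | h6
  · unfold chk3 at h6
    have h7 := or_mp (List.all_eq_true.mp h6 nb (List.mem_range.mpr (by omega)))
      (by
        rw [Bool.and_eq_true, Bool.or_eq_true, decide_eq_true_eq, decide_eq_true_eq,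
          decide_eq_true_eq]
        exact ⟨hdvd, hnb⟩)
    rw [decide_eq_true_eq] at h7
    left
    have hb : Bbg nb = if nb = 1 then 0 else bl.getD nb 0 := by
      unfold Bbg
      split_ifs with h8
      · rfl
      · exact bl_eq nb (by omega)
    rw [hb, bl_eq n hn]
    set c := if nb = 1 then 0 else bl.getD nb 0 with hcdef
    set B := bl.getD n 0 with hBdef
    by_contra hcon
    push Not at hcon
    have h8 : max 1 (B - c) ≤ t := by
      apply max_le ht
      omega
    have h9 : max 1 (B - c) * max 1 (B - c) * nb * w ≤ t * t * nb * w := by gcongr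
    omega
  · right; left
    rw [Bool.and_eq_true, decide_eq_true_eq, decide_eq_true_eq] at h6
    exact h6
  · right; right
    rw [Bool.and_eq_true, Bool.and_eq_true, decide_eq_true_eq, decide_eq_true_eq,
      decide_eq_true_eq] at h6
    exact ⟨h6.1.1, h6.1.2, h6.2⟩

/-- The estimate for large `n`. -/
theorem large {n m w cn nb t : ℕ} {s : ℝ} (hn : 37 ≤ n) (_hm : m < n) (hnm : n ≤ 3 * m) (hw : w ≤ n)
    (hw0 : 1 ≤ w) (hs : (w : ℝ) = n + m - s) (_hs0 : 0 ≤ s) (hs2 : s ^ 2 ≤ 4 * n * m)
    (hnb : nb = 1 ∨ 3 ≤ nb) (hcn : cn * nb = w) (ht : 1 ≤ t)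
    (h3 : (t : ℝ) * Real.sqrt nb * Real.sqrt w + m ≤ n) : 1 + t + Bbg nb ≤ Bev n := by
  have hn0 : (37 : ℝ) ≤ n := by exact_mod_cast hn
  have hw1 : (1 : ℝ) ≤ w := by exact_mod_cast hw0
  have hwn : (w : ℝ) ≤ n := by exact_mod_cast hw
  have hnmr : (n : ℝ) ≤ 3 * m := by exact_mod_cast hnm
  have htr : (1 : ℝ) ≤ t := by exact_mod_cast ht
  have hm0 : (0 : ℝ) ≤ m := Nat.cast_nonneg m
  set N := Real.sqrt n with hN
  set W := Real.sqrt w with hW
  set x := Real.sqrt m with hx
  set P := Real.sqrt nb with hP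
  have hN2 : N ^ 2 = n := Real.sq_sqrt (by linarith)
  have hW2 : W ^ 2 = w := Real.sq_sqrt (by linarith)
  have hx2 : x ^ 2 = m := Real.sq_sqrt hm0
  have hP2 : P ^ 2 = nb := Real.sq_sqrt (Nat.cast_nonneg nb)
  have hN0 : 0 ≤ N := Real.sqrt_nonneg _
  have hW0 : 0 ≤ W := Real.sqrt_nonneg _
  have hx0 : 0 ≤ x := Real.sqrt_nonneg _
  have hP0 : 0 ≤ P := Real.sqrt_nonneg _
  have hN6 : 6 ≤ N := by
    rw [hN]
    apply Real.le_sqrt_of_sq_le
    linarith
  have hW1 : 1 ≤ W := by
    rw [hW]
    apply Real.le_sqrt_of_sq_le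
    linarith
  have hWN : W ≤ N := Real.sqrt_le_sqrt hwn
  -- `N - W ≤ x`
  have hsx : s ≤ 2 * N * x := by
    apply le_of_sq_le_sq _ (by positivity)
    calc s ^ 2 ≤ 4 * n * m := hs2
      _ = (2 * N * x) ^ 2 := by rw [← hN2, ← hx2]; ring
  have hNWx : N - W ≤ x := by
    by_contra hc
    push Not at hc
    have h4 : (N - x) ^ 2 ≤ W ^ 2 := by
      have e1 : (N - x) ^ 2 = N ^ 2 + x ^ 2 - 2 * N * x := by ring
      rw [hW2, hs, e1, hN2, hx2]
      linarith
    have h5 : W < N - x := by linarith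
    have h6 : W ^ 2 < (N - x) ^ 2 := pow_lt_pow_left₀ h5 hW0 (by norm_num)
    linarith
  have hE : (t : ℝ) * P * W ≤ 2 * N * W - W ^ 2 := by
    have h4 : (N - W) ^ 2 ≤ x ^ 2 := by
      apply pow_le_pow_left₀ (by linarith) hNWx
    have h5 : (t : ℝ) * P * W ≤ N ^ 2 - x ^ 2 := by rw [hN2, hx2]; linarith
    have e1 : (N - W) ^ 2 = N ^ 2 - 2 * N * W + W ^ 2 := by ring
    rw [e1] at h4
    linarith
  have hI : (t : ℝ) * P ≤ 2 * N - W := by
    have h4 : ((t : ℝ) * P) * W ≤ (2 * N - W) * W := by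
      have e1 : (2 * N - W) * W = 2 * N * W - W ^ 2 := by ring
      rw [e1]
      exact hE
    exact le_of_mul_le_mul_right h4 (by linarith)
  have hPW : P ≤ W := by
    apply Real.sqrt_le_sqrt
    have : nb ≤ w := by
      rw [← hcn]
      rcases Nat.eq_zero_or_pos cn with h | h
      · rw [h, zero_mul] at hcn; omega
      · exact Nat.le_mul_of_pos_left nb h
    exact_mod_cast this
  -- the claim in real numbers
  have key : (1 : ℝ) + t + (Bbg nb : ℕ) ≤ 2 * N := by
    rcases hnb with hnb | hnb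
    · rw [hnb]
      have hb : Bbg 1 = 0 := rfl
      rw [hb]
      have hP1 : P = 1 := by rw [hP, hnb]; simp
      rw [hP1] at hI
      push_cast
      linarith
    · have hnb1 : nb ≠ 1 := by omega
      have hb : Bbg nb = Bev nb := by unfold Bbg; rw [if_neg hnb1]
      rw [hb]
      set c : ℝ := ((Bev nb : ℕ) : ℝ) with hc
      have hc0 : 0 ≤ c := Nat.cast_nonneg _
      have hc2 : c ^ 2 ≤ 4 * P ^ 2 + 1 := by
        rw [hP2, hc]
        exact_mod_cast H79.bev_sq nb
      have hnbr : (3 : ℝ) ≤ nb := by exact_mod_cast hnb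
      have hP3 : 1.732 ≤ P := by
        rw [hP]
        apply Real.le_sqrt_of_sq_le
        norm_num
        linarith
      have hcP : c ≤ 2 * P + 0.145 := by
        apply le_of_sq_le_sq _ (by positivity)
        have e1 : (2 * P + 0.145) ^ 2 = 4 * P ^ 2 + 0.58 * P + 0.021025 := by ring
        rw [e1]
        linarith
      by_cases hcase : cn = 1 ∧ t = 1
      · -- `nb = w ≤ n - m ≤ 2 n / 3`
        have hPW' : P = W := by
          rw [hP, hW, ← hcn, hcase.1, one_mul]
        have h5 : P ^ 2 ≤ 2 / 3 * N ^ 2 := by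
          rw [hcase.2, ← hPW'] at h3
          push_cast at h3
          have e1 : (1 : ℝ) * P * P = P ^ 2 := by ring
          rw [hN2]
          linarith
        have h6 : c ≤ 2 * N - 2 := by
          apply le_of_sq_le_sq _ (by linarith)
          have e1 : (2 * N - 2) ^ 2 = 4 * N ^ 2 - 8 * N + 4 := by ring
          rw [e1]
          have h7 : 6 * N ≤ N ^ 2 := by
            rw [sq]
            exact mul_le_mul_of_nonneg_right hN6 hN0
          linarith
        rw [hcase.2]
        push_cast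
        linarith
      · -- `P ≤ 0.69 N`
        have h5 : (t : ℝ) ^ 2 * cn * P ^ 4 ≤ 4 / 9 * N ^ 4 := by
          have h6 : (t : ℝ) * P * W ≤ 2 / 3 * N ^ 2 := by
            rw [hN2]; linarith
          have h7 : ((t : ℝ) * P * W) ^ 2 ≤ (2 / 3 * N ^ 2) ^ 2 := by
            apply pow_le_pow_left₀ (by positivity) h6
          have h8 : W ^ 2 = cn * P ^ 2 := by
            rw [hW2, hP2, ← hcn]; push_cast; ring
          calc (t : ℝ) ^ 2 * cn * P ^ 4 = ((t : ℝ) * P) ^ 2 * (cn * P ^ 2) := by ring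
            _ = ((t : ℝ) * P * W) ^ 2 := by rw [← h8]; ring
            _ ≤ (2 / 3 * N ^ 2) ^ 2 := h7
            _ = 4 / 9 * N ^ 4 := by ring
        have hcn1 : 1 ≤ cn := by
          rcases Nat.eq_zero_or_pos cn with h | h
          · rw [h, zero_mul] at hcn; omega
          · exact h
        have h6 : (2 : ℝ) ≤ (t : ℝ) ^ 2 * cn := by
          have h7 : 2 ≤ t ^ 2 * cn := by
            by_cases h8 : cn = 1
            · have h9 : 2 ≤ t := by
                by_contra h10
                exact hcase ⟨h8, by omega⟩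
              rw [h8, mul_one]
              nlinarith
            · have h9 : 2 ≤ cn := by omega
              have h10 : 1 ≤ t ^ 2 := Nat.one_le_pow _ _ ht
              nlinarith
          exact_mod_cast h7
        have h7 : P ^ 4 ≤ 2 / 9 * N ^ 4 := by
          have h8 : 2 * P ^ 4 ≤ (t : ℝ) ^ 2 * cn * P ^ 4 := by
            apply mul_le_mul_of_nonneg_right h6 (by positivity)
          linarith
        have h8 : P ≤ 0.69 * N := by
          by_contra hcon
          push Not at hcon
          have h9 : (0.69 * N) ^ 4 < P ^ 4 := by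
            apply pow_lt_pow_left₀ hcon (by positivity) (by norm_num)
          have h10 : (0.69 * N) ^ 4 = 0.22667121 * N ^ 4 := by ring
          have h11 : 0 ≤ N ^ 4 := by positivity
          rw [h10] at h9
          linarith
        -- the final estimate
        by_contra hcon
        push Not at hcon
        have h9 : ((1 : ℝ) + t) * P ≤ 2 * N := by
          have e1 : ((1 : ℝ) + t) * P = P + t * P := by ring
          rw [e1]
          linarith
        have h10 : 2 * N * P < (1 + t + c) * P := by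
          apply mul_lt_mul_of_pos_right hcon (by linarith)
        have h11 : c * P ≤ (2 * P + 0.145) * P := by
          apply mul_le_mul_of_nonneg_right hcP hP0
        have h12 : 0 ≤ (P - 1.732) * (0.69 * N - P) := by
          apply mul_nonneg (by linarith) (by linarith)
        have e2 : (P - 1.732) * (0.69 * N - P) =
            0.69 * (N * P) - P ^ 2 - 1.19508 * N + 1.732 * P := by ring
        have e3 : ((1 : ℝ) + t + c) * P = (1 + t) * P + c * P := by ring
        have e4 : (2 * P + 0.145) * P = 2 * P ^ 2 + 0.145 * P := by ring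
        have e5 : 2 * N * P = 2 * (N * P) := by ring
        have h13 : 6 * P ≤ N * P := mul_le_mul_of_nonneg_right hN6 hP0
        rw [e2] at h12
        rw [e3, e5] at h10
        rw [e4] at h11
        linarith
  have hfin : (1 + t + Bbg nb) ^ 2 ≤ 4 * n := by
    have h4 : ((1 : ℝ) + t + (Bbg nb : ℕ)) ^ 2 ≤ (2 * N) ^ 2 := by
      apply pow_le_pow_left₀ (by positivity) key
    have h5 : (((1 + t + Bbg nb) ^ 2 : ℕ) : ℝ) ≤ ((4 * n : ℕ) : ℝ) := by
      push_cast
      calc ((1 : ℝ) + t + (Bbg nb : ℕ)) ^ 2 ≤ (2 * N) ^ 2 := h4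
        _ = 4 * n := by rw [mul_pow, hN2]; norm_num
    exact_mod_cast h5
  exact (Nat.le_sqrt'.mpr hfin).trans (H79.sqrt_le_bev (by omega))

/-- Row EV_TAB. -/
theorem evt (evm : EvmS) (evp : EvpS) : EvtS := by
  intro al de hde hlt hc h3m cn nb t hnb hcn ht3
  obtain ⟨hwlt, hpot⟩ := evp al de hde hlt hc
  set n := nE al with hn
  set m := nE de with hm
  set w := nE (al - de) with hw
  have an : ((n : ℕ) : ℤ) = al.norm := H79.natAbs_norm al
  have am : ((m : ℕ) : ℤ) = de.norm := H79.natAbs_norm de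
  have aw : ((w : ℕ) : ℤ) = (al - de).norm := H79.natAbs_norm (al - de)
  have hw0 : 1 ≤ w := by
    have h1 : al - de ≠ 0 := by
      intro h
      have h2 : al = de := sub_eq_zero.mp h
      rw [hn, hm, h2] at hlt
      exact lt_irrefl _ hlt
    have h2 := Eis.norm_pos h1
    rw [← aw] at h2
    exact_mod_cast h2
  have hnb0 : 1 ≤ nb := by omega
  have hnbw : nb ≤ w := by
    rw [← hcn]
    rcases Nat.eq_zero_or_pos cn with h | h
    · rw [h, zero_mul] at hcn; omega
    · exact Nat.le_mul_of_pos_left nb h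
  rcases Nat.eq_zero_or_pos t with ht | ht
  · left
    have h1 : Bbg nb ≤ Bev w := by
      unfold Bbg
      split_ifs with h
      · exact Nat.zero_le _
      · exact evm.1 hnbw
    rw [ht]
    omega
  · -- the geometry
    obtain ⟨k, s', k', y, hk, e1, e2, e3, e4, e5⟩ := H79.rot al de
    obtain ⟨hc0, hc1⟩ := hc
    rw [← an, ← am, ← aw] at hc0 hc1 e1
    have hsm : (m : ℤ) ≤ (n : ℤ) + m - w := by
      by_contra hcon
      push Not at hcon
      have h1 : ((n : ℤ) + m - w) ^ 2 < (m : ℤ) ^ 2 := by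
        apply pow_lt_pow_left₀ hcon hc0 (by norm_num)
      have h2 : (m : ℤ) ^ 2 ≤ n * m := by
        rw [sq]
        apply mul_le_mul_of_nonneg_right _ (by positivity)
        exact_mod_cast hlt.le
      linarith
    have hwn : w ≤ n := hwlt.le
    by_cases h37 : n < 37
    · have hcast : (((n + m - w : ℕ)) : ℤ) = (n : ℤ) + m - w := by
        rw [Nat.cast_sub (by omega)]
        push_cast
        ring
      have c1 : n * m ≤ (n + m - w) * (n + m - w) := by
        have : ((n * m : ℕ) : ℤ) ≤ (((n + m - w) * (n + m - w) : ℕ) : ℤ) := by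
          push_cast [hcast]
          rw [← sq]
          exact hc1
        exact_mod_cast this
      have c2 : (n + m - w) * (n + m - w) ≤ 4 * (n * m) := by
        have : (((n + m - w) * (n + m - w) : ℕ) : ℤ) ≤ ((4 * (n * m) : ℕ) : ℤ) := by
          push_cast [hcast]
          have := sq_nonneg k
          nlinarith
        exact_mod_cast this
      have c3 : t * t * nb * w ≤ (n - m) * (n - m) := by
        have h1 : ((t : ℝ) * Real.sqrt nb * Real.sqrt w) ^ 2 ≤ ((n : ℝ) - m) ^ 2 := by
          apply pow_le_pow_left₀ (by positivity)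
          linarith
        rw [mul_pow, mul_pow, Real.sq_sqrt (Nat.cast_nonneg nb), Real.sq_sqrt (Nat.cast_nonneg w)]
          at h1
        have h2 : ((t * t * nb * w : ℕ) : ℝ) ≤ (((n - m) * (n - m) : ℕ) : ℝ) := by
          rw [Nat.cast_mul (n - m), Nat.cast_sub hlt.le]
          push_cast
          nlinarith
        exact_mod_cast h2
      rcases tab h37 hlt h3m hwn (H79.nE_res al) (H79.nE_res de) (H79.nE_res (al - de)) c1 c2 hnb
        (by rw [← hcn]; exact Nat.mul_mod_left _ _) hnbw ht c3 with h | h | h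
      · exact Or.inl h
      · exact Or.inr h
      · exfalso
        rw [h.1, h.2.1, h.2.2] at e1
        push_cast at e1
        have hk1 : 3 * k ^ 2 = 336 := by linarith
        have hk2 : k ≤ 11 := by nlinarith
        have hk3 : 10 ≤ k := by nlinarith
        interval_cases k <;> omega
    · left
      push Not at h37
      refine large (s := (n : ℝ) + m - w) h37 hlt h3m hwn hw0 (by ring) ?_ ?_ hnb hcn ht ht3
      · exact_mod_cast hc0
      · have h1 : ((n : ℤ) + m - w) ^ 2 ≤ 4 * n * m := by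
          have := sq_nonneg k
          linarith
        exact_mod_cast h1

end Pool.Agent.B5.EV47
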