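import Pool.Agent.Lib.MP_b5021c_nt.IfaceE4
import Pool.Agent.Lib.MP_b5021c_nt.H47.Dist

/-!
# Board b5, stage 3, chapter E4: rows MPA, MNF, MDC, RNK, T2F, VP2 (helper47)
-/

namespace Pool.Agent.B5.E4

open scoped LaurentPolynomial
open AddMonoidAlgebra Pool.Agent.B5.H47

set_option linter.unusedSectionVars false

section Gen

variable {O : Type} [CommRing O] [IsDomain O] [IsPrincipalIdealRing O] [Coef O] {P : Type}
  [Fintype P] [DecidableEq P] {L : Type} [AddCommGroup L] [Module.Free ℤ L] [Module.Finite ℤ L]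

/-- The mutual pair with its ports. -/
theorem toMut (mco : McoS) {phi : L →+ (P → ℤ)} {D : AO O L} {S0 S1 : L} {e0 e1 : (RO O)ˣ}
    (hi : Function.Injective phi) (hb : ∀ a ∈ supp D, Bin phi a) (h : Mut D S0 S1 e0 e1)
    (X : Dp phi S0 S1) : H47.Mut phi D S0 S1 e0 e1 X.i0 X.i1 := by
  refine ⟨hi, hb, hb _ h.r0.1, hb _ h.r1.1, X.h0, ?_, (mco O P L phi D S0 S1 e0 e1 hi hb h).1,
    h.m0, h.m1⟩
  have h1 := X.hk X.T
  rw [X.h1, X.eT] at h1
  exact h1.symm

/-- The double closing of the paper is the double closing of `H47`. -/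
theorem dc_ccl' {phi : L →+ (P → ℤ)} {D : AO O L} {S0 S1 : L} {e0 e1 : (RO O)ˣ}
    (X : Dp phi S0 S1) {i0 i1 : P} (h : X.i0 = i0) (h' : X.i1 = i1)
    (m : H47.Mut phi D S0 S1 e0 e1 i0 i1) (u0 u1 : (RO O)ˣ) :
    rk (supp (dc X u0 u1 D)) = rk (supp (ccl m u0 u1)) := by
  obtain ⟨i0', h0, T, eT, i1', k1, hk, h1⟩ := X
  have hi : i0' = i0 := h
  have hj : i1' = i1 := h'
  clear h h'
  subst hi hj
  have hk' : k1 = co (phK phi (co phi i0')) i1' := AddMonoidHom.ext hk
  subst hk'
  have hT' : T = kT m := Subtype.ext eT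
  subst hT'
  rfl

theorem dc_ccl {phi : L →+ (P → ℤ)} {D : AO O L} {S0 S1 : L} {e0 e1 : (RO O)ˣ}
    (X : Dp phi S0 S1) (m : H47.Mut phi D S0 S1 e0 e1 X.i0 X.i1) (u0 u1 : (RO O)ˣ) :
    rk (supp (dc X u0 u1 D)) = rk (supp (ccl m u0 u1)) :=
  dc_ccl' X rfl rfl m u0 u1

/-- Coefficients of the double closing. -/
theorem dc_coeff {phi : L →+ (P → ℤ)} {D : AO O L} {S0 S1 : L} (hb : ∀ a ∈ supp D, Bin phi a)
    (hd : ∀ i, phi S0 i = 0 ∨ phi S1 i = 0) (X : Dp phi S0 S1) (u0 u1 : (RO O)ˣ) (x : Ker X.k1) :
    (dc X u0 u1 D).coeff x = dco D S0 S1 u0 u1 ((x : Ker (co phi X.i0)) : L) := by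
  have hT1 : phi S1 X.i1 = 1 := by
    have h1 := X.hk X.T
    rw [X.h1, X.eT] at h1
    exact h1.symm
  have hS1 : phi S0 X.i1 = 0 := by
    rcases hd X.i1 with h | h
    · exact h
    · omega
  have h1 : ∀ a : Ker (co phi X.i0), (cl (co phi X.i0) S0 X.h0 u0 D).coeff a =
      D.coeff (a : L) + (u0 : RO O) * D.coeff ((a : L) + S0) :=
    cl_coeff_bin (co phi X.i0) S0 X.h0 u0 D (fun a ha => hb a ha X.i0)
  have h2 : ∀ a ∈ supp (cl (co phi X.i0) S0 X.h0 u0 D), X.k1 a = 0 ∨ X.k1 a = 1 := by
    intro a ha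
    have h3 : (cl (co phi X.i0) S0 X.h0 u0 D).coeff a ≠ 0 := ha
    rw [h1] at h3
    rw [X.hk]
    by_cases h4 : D.coeff (a : L) = 0
    · rw [h4, zero_add] at h3
      have h5 := hb _ (right_ne_zero_of_mul h3) X.i1
      rw [map_add, Pi.add_apply, hS1, add_zero] at h5
      exact h5
    · exact hb _ h4 X.i1
  rw [dc, cl_coeff_bin _ _ _ _ _ h2, h1, h1, dco]
  have e1 : (((x : Ker (co phi X.i0)) + X.T : Ker (co phi X.i0)) : L) =
      ((x : Ker (co phi X.i0)) : L) + S1 := by
    rw [Submodule.coe_add, X.eT]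
  rw [e1, add_right_comm (((x : Ker (co phi X.i0)) : L)) S1 S0]
  ring

end Gen

/-- Row E4_MDC. -/
theorem mdc : MdcS := by
  intro O _ _ _ _ P L _ _ _ _ _ phi D S0 S1 _ hb _ _ hd X u0 u1
  have hT1 : phi S1 X.i1 = 1 := by
    have h1 := X.hk X.T
    rw [X.h1, X.eT] at h1
    exact h1.symm
  refine ⟨fun a ha => ?_, ?_⟩
  · have hi0 : phi a X.i0 = 0 := by
      rcases ha X.i0 with h | h
      · exact h
      · have h2 : phi S0 X.i0 = 1 := X.h0
        omega
    have hi1 : phi a X.i1 = 0 := by
      rcases ha X.i1 with h | h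
      · exact h
      · omega
    refine ⟨⟨⟨a, hi0⟩, ?_⟩, rfl, ?_⟩
    · rw [mem_Ker, X.hk]
      exact hi1
    · rw [dc_coeff hb hd]; rfl
  · rw [dc_coeff hb hd]
    have e1 : (((0 : Ker X.k1) : Ker (co phi X.i0)) : L) = 0 := rfl
    rw [e1, dco, zero_add, zero_add]

/-- Row E4_MNF. -/
theorem mnf (f1 : F1S) (mco : McoS) : MnfS := by
  intro O _ _ _ _ P L _ _ _ _ _ phi D S0 S1 e0 e1 hi hb h a ha
  obtain ⟨X⟩ := (mco O P L phi D S0 S1 e0 e1 hi hb h).2.2.2
  have m := toMut mco hi hb h X
  have hi0 : phi a X.i0 = 0 := by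
    rcases ha X.i0 with h | h
    · exact h
    · have h2 : phi S0 X.i0 = 1 := X.h0
      omega
  have hi1 : phi a X.i1 = 0 := by
    rcases ha X.i1 with h | h
    · exact h
    · have h2 : phi S1 X.i1 = 1 := m.hT
      omega
  obtain ⟨w, r, s, t, hs, ht, h00, h10, h01, h11, hU, _⟩ := nf f1 m a hi0 hi1
  exact ⟨s, t, w, r, ⟨hs, ht, h00, h10, h01, h11⟩, hU⟩

/-- Row E4_MPA. -/
theorem mpa (f1 : F1S) (mco : McoS) : MpaS := by
  intro O _ _ _ _ P L _ _ _ _ _ phi D S0 S1 e0 e1 hi hb h b hbs
  obtain ⟨X⟩ := (mco O P L phi D S0 S1 e0 e1 hi hb h).2.2.2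
  have m := toMut mco hi hb h X
  have hSi : phi S0 X.i0 = 1 := m.hS
  have hTi : phi S1 X.i0 = 0 := m.Tij
  have hTj : phi S1 X.i1 = 1 := m.hT
  have hSj : phi S0 X.i1 = 0 := m.swap.Tij
  -- the base
  set a : L := b - phi b X.i0 • S0 - phi b X.i1 • S1 with ha
  have hai : phi a X.i0 = 0 := by
    rw [ha, map_sub, map_sub, map_zsmul, map_zsmul, Pi.sub_apply, Pi.sub_apply, Pi.smul_apply,
      Pi.smul_apply, hSi, hTi]
    simp
  have haj : phi a X.i1 = 0 := by
    rw [ha, map_sub, map_sub, map_zsmul, map_zsmul, Pi.sub_apply, Pi.sub_apply, Pi.smul_apply,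
      Pi.smul_apply, hSj, hTj]
    simp
  have hmem : ∀ c ∈ supp D, (∃ k l : ℤ, c = b + k • S0 + l • S1) →
      ∃ s t : Fin 2, c = a + (s : ℕ) • S0 + (t : ℕ) • S1 ∧ phi c X.i0 = ((s : ℕ) : ℤ) ∧
        phi c X.i1 = ((t : ℕ) : ℤ) := by
    rintro c hc ⟨k, l, hkl⟩
    have hci : phi c X.i0 = phi b X.i0 + k := by
      rw [hkl, map_add, map_add, map_zsmul, map_zsmul, Pi.add_apply, Pi.add_apply, Pi.smul_apply,
        Pi.smul_apply, hSi, hTi]
      simp
    have hcj : phi c X.i1 = phi b X.i1 + l := by
      rw [hkl, map_add, map_add, map_zsmul, map_zsmul, Pi.add_apply, Pi.add_apply, Pi.smul_apply,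
        Pi.smul_apply, hSj, hTj]
      simp
    have hca : c = a + phi c X.i0 • S0 + phi c X.i1 • S1 := by
      rw [hci, hcj, ha, hkl, add_smul, add_smul]
      abel
    have hs : ∃ s : Fin 2, phi c X.i0 = ((s : ℕ) : ℤ) := by
      rcases hb c hc X.i0 with h1 | h1
      · exact ⟨0, by rw [h1]; rfl⟩
      · exact ⟨1, by rw [h1]; rfl⟩
    have ht : ∃ t : Fin 2, phi c X.i1 = ((t : ℕ) : ℤ) := by
      rcases hb c hc X.i1 with h1 | h1
      · exact ⟨0, by rw [h1]; rfl⟩
      · exact ⟨1, by rw [h1]; rfl⟩
    obtain ⟨s, hs⟩ := hs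
    obtain ⟨t, ht⟩ := ht
    refine ⟨s, t, ?_, hs, ht⟩
    rw [hs, ht, natCast_zsmul, natCast_zsmul] at hca
    exact hca
  by_cases hp : Part phi S0 b ∨ Part phi S1 b
  · left
    refine ⟨hp, ?_⟩
    obtain ⟨s, t, hst, his, hit⟩ := hmem b hbs ⟨0, 0, by simp⟩
    -- the class meets `S0` or `S1` in a proper part
    have hpart : (∃ p, phi S0 p = 1 ∧ phi a p ≠ 0) ∨ (∃ p, phi S1 p = 1 ∧ phi a p ≠ 0) := by
      rcases hp with ⟨⟨p, hp1, hp2⟩, ⟨q, hq1, hq2⟩⟩ | ⟨⟨p, hp1, hp2⟩, ⟨q, hq1, hq2⟩⟩
      · left
        have hz : ∀ p, phi S0 p = 1 → phi S1 p = 0 := by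
          intro p hp
          rcases m.dis p with h | h
          · omega
          · exact h
        have va : ∀ p, phi S0 p = 1 → phi a p = phi b p - phi b X.i0 := by
          intro p hp
          rw [ha, map_sub, map_sub, map_zsmul, map_zsmul, Pi.sub_apply, Pi.sub_apply,
            Pi.smul_apply, Pi.smul_apply, hp, hz p hp]
          simp
        rcases hb b hbs X.i0 with h1 | h1
        · refine ⟨p, hp2, ?_⟩
          rw [va p hp2, hp1, h1]; decide
        · refine ⟨q, hq2, ?_⟩
          rw [va q hq2, hq1, h1]; decide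
      · right
        have hz : ∀ p, phi S1 p = 1 → phi S0 p = 0 := by
          intro p hp
          rcases m.dis p with h | h
          · exact h
          · omega
        have va : ∀ p, phi S1 p = 1 → phi a p = phi b p - phi b X.i1 := by
          intro p hp
          rw [ha, map_sub, map_sub, map_zsmul, map_zsmul, Pi.sub_apply, Pi.sub_apply,
            Pi.smul_apply, Pi.smul_apply, hp, hz p hp]
          simp
        rcases hb b hbs X.i1 with h1 | h1
        · refine ⟨p, hp2, ?_⟩
          rw [va p hp2, hp1, h1]; decide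
        · refine ⟨q, hq2, ?_⟩
          rw [va q hq2, hq1, h1]; decide
    intro k l hkl
    obtain ⟨s', t', hst', his', hit'⟩ := hmem (b + k • S0 + l • S1) hkl ⟨k, l, rfl⟩
    have huniq : s' = s ∧ t' = t := by
      rw [hst'] at hkl
      have hb' : D.coeff (a + (s : ℕ) • S0 + (t : ℕ) • S1) ≠ 0 := by rw [← hst]; exact hbs
      rcases hpart with hp | hp
      · exact (part f1 m a hai haj hp s t hb').2.2 s' t' hkl
      · have h3 := (part f1 m.swap a haj hai hp t s (by rwa [add_right_comm])).2.2 t' s'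
          (by rwa [add_right_comm])
        exact ⟨h3.2, h3.1⟩
    have hci : phi (b + k • S0 + l • S1) X.i0 = phi b X.i0 + k := by
      rw [map_add, map_add, map_zsmul, map_zsmul, Pi.add_apply, Pi.add_apply, Pi.smul_apply,
        Pi.smul_apply, hSi, hTi]
      simp
    have hcj : phi (b + k • S0 + l • S1) X.i1 = phi b X.i1 + l := by
      rw [map_add, map_add, map_zsmul, map_zsmul, Pi.add_apply, Pi.add_apply, Pi.smul_apply,
        Pi.smul_apply, hSj, hTj]
      simp
    rw [hci, his, huniq.1] at his'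
    rw [hcj, hit, huniq.2] at hit'
    omega
  · right
    refine ⟨hp, ?_⟩
    obtain ⟨s, t, hst, his, hit⟩ := hmem b hbs ⟨0, 0, by simp⟩
    refine ⟨a, s, t, by omega, by omega, ?_, hst⟩
    intro p
    have vb : ∀ p, phi b p = phi a p + (s : ℕ) * phi S0 p + (t : ℕ) * phi S1 p := by
      intro p
      conv_lhs => rw [hst]
      exact phi_mem phi S0 S1 a s t p
    rw [not_or] at hp
    rcases m.bS p with h0 | h0
    · rcases m.bT p with h1 | h1
      · exact Or.inr ⟨h0, h1⟩
      · -- `p` in `S1`
        left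
        have hall : phi b p = phi b X.i1 := by
          have hbp := hb b hbs p
          have hbi := hb b hbs X.i1
          by_contra hne
          apply hp.2
          rcases hbp with h2 | h2 <;> rcases hbi with h3 | h3
          · exact absurd (h2.trans h3.symm) hne
          · exact ⟨⟨X.i1, h3, hTj⟩, ⟨p, h2, h1⟩⟩
          · exact ⟨⟨p, h2, h1⟩, ⟨X.i1, h3, hTj⟩⟩
          · exact absurd (h2.trans h3.symm) hne
        have h4 := vb p
        rw [hall, hit, h0, h1] at h4
        linarith
    · have h1 : phi S1 p = 0 := by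
        rcases m.dis p with h | h
        · omega
        · exact h
      left
      have hall : phi b p = phi b X.i0 := by
        have hbp := hb b hbs p
        have hbi := hb b hbs X.i0
        by_contra hne
        apply hp.1
        rcases hbp with h2 | h2 <;> rcases hbi with h3 | h3
        · exact absurd (h2.trans h3.symm) hne
        · exact ⟨⟨X.i0, h3, hSi⟩, ⟨p, h2, h0⟩⟩
        · exact ⟨⟨p, h2, h0⟩, ⟨X.i0, h3, hSi⟩⟩
        · exact absurd (h2.trans h3.symm) hne
      have h4 := vb p
      rw [hall, his, h0, h1] at h4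
      linarith

/-- Row E4_T2F. -/
theorem t2f (f1 : F1S) (f2 : F2S) (f3 : F3S) (e2s : E2S) (km : KmuS) (rk' : RkS) (mco : McoS) :
    T2fS := by
  intro O _ _ _ _ P L _ _ _ _ _ phi D S0 S1 S2 e0 e1 e2 t0 t1 hD h1 h2 hs2 hs1 ht0 ht1 X
  have m := toMut mco hD.inj hD.bin h1 X
  rw [dc_ccl X m]
  have hR : ∀ n : ℤ, S2 + n • S1 ∉ US e0 S0 D := by
    intro n hn
    have h3 := f3 O P L phi D S0 S1 e0 e1 hD.inj hD.bin h1.r0 h1.r1 h1.m0 hn
    have h4 : S1 ∈ satur (US e1 S1 D ⊔ Submodule.span ℤ {S0}) :=
      H63.le_satur _ (Submodule.mem_sup_left (S_mem e1 S1 D))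
    apply hs2
    have h5 := Submodule.sub_mem _ h3 (Submodule.smul_mem _ n h4)
    rwa [add_sub_cancel_right] at h5
  have hT : S1 ∉ US e2 S2 D := fun h => hs1 (H63.le_satur _ (Submodule.mem_sup_left h))
  have hS2 : S2 ∉ US e1 S1 D := fun h => hs2 (H63.le_satur _ (Submodule.mem_sup_left h))
  have htwo : 2 ≤ Module.finrank ℤ L := by
    have := rk_ker2 rk' m
    omega
  refine trip f1 km rk' m (e2s O P L phi D hD htwo).2.2.2.2.1 (hD.bin S2 h2.r1.1) h2.r1.2.1
    h2.r1.1 (f2 O P L phi D S2 S0 e0 hD.inj hD.bin h2.r1 h1.r0 h2.m0)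
    (f2 O P L phi D S2 S1 e1 hD.inj hD.bin h2.r1 h1.r1 hS2) hR h2.m1 hT t0 t1 ?_ ?_
  · intro h
    exact ht0 (Units.ext h)
  · intro h
    exact ht1 (Units.ext h)

/-- Row E4_RNK. -/
theorem rnk (f1 : F1S) (km : KmuS) (rk' : RkS) (mco : McoS) : RnkS := by
  intro O _ _ _ _ P L _ _ _ _ _ phi D S0 S1 e0 e1 hi hb h X u0 u1
  have m := toMut mco hi hb h X
  have hSi : phi S0 X.i0 = 1 := m.hS
  have hTi : phi S1 X.i0 = 0 := m.Tij
  have hTj : phi S1 X.i1 = 1 := m.hT
  have hSj : phi S0 X.i1 = 0 := m.swap.Tij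
  have hk2 := rk_ker2 rk' m
  rw [dc_ccl X m]
  have mp := mpa f1 mco O P L phi D S0 S1 e0 e1 hi hb h
  constructor
  · intro hfull mu hmu
    -- the restriction to the lattice of the double closing
    set mu' : Ker (co (phK phi (co phi X.i0)) X.i1) →+ ℤ :=
      (mu.comp (incl (Ker (co phi X.i0)))).comp (incl (Ker (co (phK phi (co phi X.i0)) X.i1)))
      with hmu'
    have hz : mu' = 0 := by
      apply zero_of_rk rk' mu' (supp (ccl m u0 u1)) (by omega)
      intro x hx
      have hx' : (ccl m u0 u1).coeff x ≠ 0 := hx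
      rw [ccl_coeff] at hx'
      set a : L := ((x : Ker (co phi X.i0)) : L) with ha
      have hai : phi a X.i0 = 0 := (x : Ker (co phi X.i0)).2
      have haj : phi a X.i1 = 0 := x.2
      change mu a = 0
      by_cases hout : Out phi S0 S1 a
      · by_contra hne
        exact hx' (hmu.free a hout hne)
      · -- a member in the support
        have hex : ∃ c ∈ supp D, ∃ k l : ℤ, c = a + k • S0 + l • S1 := by
          by_contra hcon
          push Not at hcon
          apply hx'
          have z : ∀ k l : ℤ, D.coeff (a + k • S0 + l • S1) = 0 := by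
            intro k l
            by_contra hne
            exact hcon _ hne k l rfl
          have z00 := z 0 0
          have z10 := z 1 0
          have z01 := z 0 1
          have z11 := z 1 1
          simp only [zero_smul, one_smul, add_zero] at z00 z10 z01 z11
          rw [dco, z00, z10, z01, z11]
          ring
        obtain ⟨c, hc, k, l, hkl⟩ := hex
        have hmc : mu c = mu a := by
          rw [hkl, map_add, map_add, map_zsmul, map_zsmul, hmu.s0, hmu.s1]
          simp
        rcases mp c hc with hcp | ⟨hcn, a', p, q, hp, hq, hout', hcc⟩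
        · rw [← hmc]
          exact hmu.part c hc hcp.1
        · exfalso
          apply hout
          have ea : a = a' := by
            have hi' : phi a' X.i0 = 0 := by
              rcases hout' X.i0 with h | h
              · exact h
              · omega
            have hj' : phi a' X.i1 = 0 := by
              rcases hout' X.i1 with h | h
              · exact h
              · omega
            have e1 : (k : ℤ) = p := by
              have h1 : phi c X.i0 = k := by
                rw [hkl, map_add, map_add, map_zsmul, map_zsmul, Pi.add_apply, Pi.add_apply,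
                  Pi.smul_apply, Pi.smul_apply, hSi, hTi, hai]
                simp
              have h2 : phi c X.i0 = p := by
                rw [hcc, phi_mem, hSi, hTi, hi']; ring
              omega
            have e2 : (l : ℤ) = q := by
              have h1 : phi c X.i1 = l := by
                rw [hkl, map_add, map_add, map_zsmul, map_zsmul, Pi.add_apply, Pi.add_apply,
                  Pi.smul_apply, Pi.smul_apply, hSj, hTj, haj]
                simp
              have h2 : phi c X.i1 = q := by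
                rw [hcc, phi_mem, hSj, hTj, hj']; ring
              omega
            have e3 : a + k • S0 + l • S1 = a' + p • S0 + q • S1 := hkl.symm.trans hcc
            rw [e1, e2, natCast_zsmul, natCast_zsmul, add_assoc, add_assoc] at e3
            exact add_right_cancel e3
          rw [ea]
          exact hout'
    apply AddMonoidHom.ext
    intro c
    set a : L := c - phi c X.i0 • S0 - phi c X.i1 • S1 with ha
    have hai : phi a X.i0 = 0 := by
      rw [ha, map_sub, map_sub, map_zsmul, map_zsmul, Pi.sub_apply, Pi.sub_apply, Pi.smul_apply,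
        Pi.smul_apply, hSi, hTi]
      simp
    have haj : phi a X.i1 = 0 := by
      rw [ha, map_sub, map_sub, map_zsmul, map_zsmul, Pi.sub_apply, Pi.sub_apply, Pi.smul_apply,
        Pi.smul_apply, hSj, hTj]
      simp
    have h1 : mu a = mu c := by
      rw [ha, map_sub, map_sub, map_zsmul, map_zsmul, hmu.s0, hmu.s1]
      simp
    have h2 := DFunLike.congr_fun hz (⟨⟨a, hai⟩, haj⟩ : Ker (co (phK phi (co phi X.i0)) X.i1))
    change mu a = 0 at h2
    rw [← h1, h2]
    rfl
  · intro hall
    have hle := (rk' (Ker (co (phK phi (co phi X.i0)) X.i1))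
      (Ker (co (phK phi (co phi X.i0)) X.i1))).2.2.1 (supp (ccl m u0 u1))
    by_contra hne
    obtain ⟨nu, hnu0, hnS, hnT, hnu⟩ := kill km rk' m u0 u1 (by omega)
    apply hnu0
    apply hall nu
    refine ⟨hnS, hnT, fun a ha hna => ?_, fun b hbs hp => ?_⟩
    · have hai : phi a X.i0 = 0 := by
        rcases ha X.i0 with h | h
        · exact h
        · omega
      have haj : phi a X.i1 = 0 := by
        rcases ha X.i1 with h | h
        · exact h
        · omega
      exact hnu a hai haj hna
    · by_contra hnb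
      obtain ⟨a, hai, haj, hval, hz⟩ := base m b hbs
      have h1 := hnu a hai haj (by rw [hval nu hnS hnT]; exact hnb)
      -- only one member
      obtain ⟨w, r, s, t, hs, ht, h00, h10, h01, h11, hU, hdis⟩ := nf f1 m a hai haj
      have hr : r = 0 := by
        by_contra hr
        have hout := hdis hr
        have hb2 : b = a + phi b X.i0 • S0 + phi b X.i1 • S1 := by
          by_contra hcon
          obtain ⟨k, hk⟩ : ∃ k : L →+ ℤ, k b ≠ k (a + phi b X.i0 • S0 + phi b X.i1 • S1) := by
            by_contra h5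
            push Not at h5
            apply hcon
            apply hi
            funext p
            exact h5 (co phi p)
          apply hk
          let k' : L →+ ℤ := k - (k S0) • co phi X.i0 - (k S1) • co phi X.i1
          have n1 : k' S0 = 0 := by
            change k S0 - (k S0) • phi S0 X.i0 - (k S1) • phi S0 X.i1 = 0
            rw [hSi, hSj]; simp
          have n2 : k' S1 = 0 := by
            change k S1 - (k S0) • phi S1 X.i0 - (k S1) • phi S1 X.i1 = 0
            rw [hTi, hTj]; simp
          have n3 := hval k' n1 n2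
          have n4 : k' a = k a := by
            change k a - (k S0) • phi a X.i0 - (k S1) • phi a X.i1 = k a
            rw [hai, haj]; simp
          have n5 : k' b = k b - (k S0) • phi b X.i0 - (k S1) • phi b X.i1 := rfl
          rw [n4, n5] at n3
          rw [map_add, map_add, map_zsmul, map_zsmul, n3]
          simp only [smul_eq_mul]
          ring
        have vb : ∀ p, phi b p = phi a p + phi b X.i0 * phi S0 p + phi b X.i1 * phi S1 p := by
          intro p
          conv_lhs => rw [hb2]
          rw [map_add, map_add, map_zsmul, map_zsmul, Pi.add_apply, Pi.add_apply, Pi.smul_apply,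
            Pi.smul_apply, smul_eq_mul, smul_eq_mul]
        rcases hp with ⟨⟨p, hp1, hp2⟩, ⟨q, hq1, hq2⟩⟩ | ⟨⟨p, hp1, hp2⟩, ⟨q, hq1, hq2⟩⟩
        · have hz' : ∀ p, phi S0 p = 1 → phi b p = phi b X.i0 := by
            intro p hp
            have h2 : phi S1 p = 0 := by
              rcases m.dis p with h | h
              · omega
              · exact h
            have h3 : phi a p = 0 := by
              rcases hout p with h | h
              · exact h
              · omega
            rw [vb p, hp, h2, h3]; ring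
          have := hz' p hp2
          have := hz' q hq2
          omega
        · have hz' : ∀ p, phi S1 p = 1 → phi b p = phi b X.i1 := by
            intro p hp
            have h2 : phi S0 p = 0 := by
              rcases m.dis p with h | h
              · exact h
              · omega
            have h3 : phi a p = 0 := by
              rcases hout p with h | h
              · exact h
              · omega
            rw [vb p, hp, h2, h3]; ring
          have := hz' p hp2
          have := hz' q hq2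
          omega
      have hv : dco D S0 S1 u0 u1 a = w * ((e0⁻¹ * u0 : (RO O)ˣ) : RO O) ^ s *
          ((e1⁻¹ * u1 : (RO O)ˣ) : RO O) ^ t := by
        have e1' : dco D S0 S1 u0 u1 a = D.coeff a +
            ((e0⁻¹ * u0 : (RO O)ˣ) : RO O) * ((e0 : RO O) * D.coeff (a + S0)) +
            ((e1⁻¹ * u1 : (RO O)ˣ) : RO O) * ((e1 : RO O) * D.coeff (a + S1)) +
            ((e0⁻¹ * u0 : (RO O)ˣ) : RO O) * ((e1⁻¹ * u1 : (RO O)ˣ) : RO O) *
              ((e0 : RO O) * (e1 : RO O) * D.coeff (a + S0 + S1)) := by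
          have g0 : ((e0⁻¹ * u0 : (RO O)ˣ) : RO O) * (e0 : RO O) = u0 := by
            rw [← Units.val_mul, mul_right_comm, inv_mul_cancel, one_mul]
          have g1 : ((e1⁻¹ * u1 : (RO O)ˣ) : RO O) * (e1 : RO O) = u1 := by
            rw [← Units.val_mul, mul_right_comm, inv_mul_cancel, one_mul]
          rw [dco]
          linear_combination (-D.coeff (a + S0)) * g0 - D.coeff (a + S1) * g1 -
            D.coeff (a + S0 + S1) * (u1 : RO O) * g0 -
            D.coeff (a + S0 + S1) * ((e0⁻¹ * u0 : (RO O)ˣ) : RO O) * (e0 : RO O) * g1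
        rw [e1', h00, h10, h01, h11, hr]
        rcases Nat.le_one_iff_eq_zero_or_eq_one.mp hs with rfl | rfl <;>
          rcases Nat.le_one_iff_eq_zero_or_eq_one.mp ht with rfl | rfl <;> simp <;> ring
      rw [hv] at h1
      have hw : w = 0 := by
        have h2 : w * (((e0⁻¹ * u0 : (RO O)ˣ) : RO O) ^ s * ((e1⁻¹ * u1 : (RO O)ˣ) : RO O) ^ t) = 0 := by
          linear_combination h1
        exact (mul_eq_zero.mp h2).resolve_right
          (mul_ne_zero (pow_ne_zero _ (Units.ne_zero _)) (pow_ne_zero _ (Units.ne_zero _)))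
      apply hz
      subst hw hr
      have z1 : (e0 : RO O) * D.coeff (a + S0) = 0 := by rw [h10]; simp
      have z2 : (e1 : RO O) * D.coeff (a + S1) = 0 := by rw [h01]; simp
      have z3 : (e0 : RO O) * (e1 : RO O) * D.coeff (a + S0 + S1) = 0 := by rw [h11]; simp
      exact ⟨by rw [h00]; simp, (mul_eq_zero.mp z1).resolve_left e0.ne_zero,
        (mul_eq_zero.mp z2).resolve_left e1.ne_zero,
        (mul_eq_zero.mp z3).resolve_left (mul_ne_zero e0.ne_zero e1.ne_zero)⟩

/-! ## Row VP2 -/

section Real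

variable {O : Type} [CommRing O] [IsDomain O] [IsPrincipalIdealRing O] [Coef O]

theorem cjR_coeff (p : RO O) (k : ℤ) : (cjR O p).coeff k = Coef.conj (p.coeff k) := by
  simp [cjR]

theorem cjR_of_RlR {p : RO O} (h : RlR p) : cjR O p = p := by
  apply AddMonoidAlgebra.ext
  apply Finsupp.ext
  intro k
  rw [cjR_coeff]
  exact h k

theorem evR_cjR_one (p : RO O) : evR (1 : Circle) (cjR O p) = (starRingEnd ℂ) (evR (1 : Circle) p) := by
  induction p using AddMonoidAlgebra.induction_linear with
  | zero => simp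
  | add f g hf hg => rw [map_add, map_add, hf, hg, map_add, map_add]
  | single a q =>
    have h1 : cjR O (AddMonoidAlgebra.single a q) = AddMonoidAlgebra.single a (Coef.conj q) := by
      apply AddMonoidAlgebra.ext
      apply Finsupp.ext
      intro k
      rw [cjR_coeff, coeff_single, coeff_single]
      by_cases hk : k = a
      · rw [hk, Finsupp.single_eq_same, Finsupp.single_eq_same]
      · rw [Finsupp.single_eq_of_ne hk, Finsupp.single_eq_of_ne hk, map_zero]
    rw [h1]
    have h2 : ∀ c : O, evR (1 : Circle) (AddMonoidAlgebra.single a c) = Coef.emb c := by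
      intro c
      rw [LaurentPolynomial.single_eq_C_mul_T, map_mul]
      simp [evR]
    rw [h2, h2, Coef.emb_conj]

/-- The conjugate of a root of `x^2 - x + 1` is the other root. -/
theorem cj_root {w : RO O} (hw : w * w + 1 = w) : cjR O w = 1 - w := by
  set v : RO O := cjR O w with hv
  have h1 : v * v + 1 = v := by
    have := congrArg (cjR O) hw
    rw [map_add, map_mul, map_one] at this
    exact this
  have h2 : (v - w) * (v + w - 1) = 0 := by linear_combination h1 - hw
  rcases mul_eq_zero.mp h2 with h3 | h3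
  · exfalso
    have h4 : v = w := by linear_combination h3
    have h5 := evR_cjR_one w
    rw [← hv, h4] at h5
    have h6 := congrArg (evR (1 : Circle)) hw
    rw [map_add, map_mul, map_one] at h6
    set x : ℂ := evR (1 : Circle) w with hx
    have h7 : x.im = 0 := by
      have := congrArg Complex.im h5
      rw [Complex.conj_im] at this
      linarith
    have h8 := congrArg Complex.re h6
    rw [Complex.add_re, Complex.mul_re, Complex.one_re, h7] at h8
    nlinarith [sq_nonneg (x.re - 1 / 2)]
  · linear_combination h3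

end Real

/-- Row E4_VP2. -/
theorem vp2 (f1 : F1S) (e2s : E2S) (km : KmuS) (rk' : RkS) (mco : McoS) : Vp2S := by
  intro O _ _ _ _ P L _ _ _ _ _ phi D eta S0 S1 w t0 t1 hD htwo hDr her h hm0 hm1 hw ht0 ht1 X hdrop
  have m := toMut mco hD.inj hD.bin h X
  have hco := mco O P L phi D S0 S1 (eta S0) (eta S1) hD.inj hD.bin h
  have hk2 := rk_ker2 rk' m
  have hrk := (e2s O P L phi D hD htwo).2.2.2.2.1
  -- the other root
  have hww : (w : RO O) * (1 - w) = 1 := by linear_combination -hw
  let w' : (RO O)ˣ := ⟨1 - w, w, by rw [mul_comm]; exact hww, hww⟩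
  have hw' : ((w' : (RO O)ˣ) : RO O) = 1 - w := rfl
  have ht0' : t0 = ux O := Units.ext ht0
  have ht1' : t1 = uz O := Units.ext ht1
  rw [dc_ccl X m] at hdrop ⊢
  have hle := (rk' (Ker (co (phK phi (co phi X.i0)) X.i1))
      (Ker (co (phK phi (co phi X.i0)) X.i1))).2.2.1 (supp (ccl m (eta S0 * w) (eta S1 * w)))
  obtain ⟨hfull, b, rb, hdis, hcoef, hval⟩ := vfr f1 km rk' m h.r0 h.r1 hrk w w'
    (by linear_combination hw) (by rw [hw']; ring)
    (fun a _ _ h0 => cj_of_real (fun a => cjR_of_RlR (hDr a)) (cjR_of_RlR (her S0))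
      (cjR_of_RlR (her S1)) (by rw [hw']; exact cj_root hw) a h0)
    (by omega) eta (fun b hb => ⟨fun h1 => (hm0 b hb h1).m1, fun h1 => (hm1 b hb h1).m1⟩)
  subst ht0' ht1'
  have hTT : (LaurentPolynomial.T (-1) : RO O) * LaurentPolynomial.T 1 = 1 := by
    rw [← LaurentPolynomial.T_add]; simp
  refine ⟨hfull, ?_, ?_⟩
  · have hS0i : phi S0 X.i0 = 1 := X.h0
    have hS1j : phi S1 X.i1 = 1 := m.hT
    have hbi : phi b X.i0 = 0 := by
      rcases hdis X.i0 with h | h
      · exact h
      · omega
    have hbj : phi b X.i1 = 0 := by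
      rcases hdis X.i1 with h | h
      · exact h
      · omega
    have hk1 : (⟨b, hbi⟩ : Ker (co phi X.i0)) ∈ Ker X.k1 := by
      rw [mem_Ker, X.hk]
      exact hbj
    refine ⟨⟨⟨b, hbi⟩, hk1⟩, ?_, ?_⟩
    · intro h0
      apply rb.2.1
      have h1 := congrArg (fun x : Ker X.k1 => ((x : Ker (co phi X.i0)) : L)) h0
      exact h1
    · rw [dc_coeff hD.bin m.dis]
      have hDb : D.coeff b = (((eta b)⁻¹ * eta S0 : (RO O)ˣ) : RO O) * D.coeff S0 := by
        rw [Units.val_mul, mul_assoc, ← hcoef, ← mul_assoc, Units.inv_mul, one_mul]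
      rcases hval with ⟨_, _, hv⟩ | ⟨_, _, hv⟩
      · refine ⟨-(uz O) * ((eta b)⁻¹ * eta S0), ?_⟩
        have e1 : dco D S0 S1 ((eta S0 * ux O : (RO O)ˣ) : RO O) ((eta S1 * uz O : (RO O)ˣ) : RO O)
            b = -(LaurentPolynomial.T 1 * D.coeff b) := by
          rw [Units.val_mul, Units.val_mul]; exact hv
        change dco D S0 S1 ((eta S0 * ux O : (RO O)ˣ) : RO O) ((eta S1 * uz O : (RO O)ˣ) : RO O)
          b = _
        rw [e1, hDb, Units.val_mul (-(uz O)), Units.val_neg]
        have e2 : ((uz O : (RO O)ˣ) : RO O) = LaurentPolynomial.T 1 := rfl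
        rw [e2]
        ring
      · refine ⟨(uz O)⁻¹ * ((eta b)⁻¹ * eta S0), ?_⟩
        have e1 : dco D S0 S1 ((eta S0 * ux O : (RO O)ˣ) : RO O) ((eta S1 * uz O : (RO O)ˣ) : RO O)
            b = LaurentPolynomial.T (-1) * D.coeff b := by
          rw [Units.val_mul, Units.val_mul]; exact hv
        change dco D S0 S1 ((eta S0 * ux O : (RO O)ˣ) : RO O) ((eta S1 * uz O : (RO O)ˣ) : RO O)
          b = _
        rw [e1, hDb, Units.val_mul ((uz O)⁻¹)]
        have e2 : (((uz O)⁻¹ : (RO O)ˣ) : RO O) = LaurentPolynomial.T (-1) := rfl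
        rw [e2]
        ring
  · rw [dc_coeff hD.bin m.dis]
    have e1 : (((0 : Ker X.k1) : Ker (co phi X.i0)) : L) = 0 := rfl
    have e2 : ((ux O : (RO O)ˣ) : RO O) = -LaurentPolynomial.T (-1) := rfl
    have e3 : ((uz O : (RO O)ˣ) : RO O) = LaurentPolynomial.T 1 := rfl
    rw [e1, dco, zero_add, zero_add, Units.val_mul, Units.val_mul, e2, e3]
    linear_combination (LaurentPolynomial.T 1) * hco.2.1 -
      (LaurentPolynomial.T (-1) * LaurentPolynomial.T 1) * hco.2.2.1 +
      ((eta S0 : RO O) * D.coeff S0) * hTT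

end Pool.Agent.B5.E4
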