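import Pool.Agent.Lib.MP_b5021c_nt.E.H47.E4

/-!
# Board b5, stage 3, chapter E4: row VS2 (helper47)
-/

namespace Pool.Agent.B5.H47

open scoped LaurentPolynomial
open AddMonoidAlgebra Pool.Agent.B5.H71

set_option linter.unusedSectionVars false

section Gen

variable {O : Type} [CommRing O] [IsDomain O] [IsPrincipalIdealRing O] [Coef O] {P : Type}
  [Fintype P] [DecidableEq P] {L : Type} [AddCommGroup L] [Module.Free ℤ L] [Module.Finite ℤ L]

/-- Values of a closing `(x, y)` with `x y = -1`. -/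
theorem xzg {x y : (RO O)ˣ} (hxy : (x : RO O) * y = -1) (h0 : (x : RO O) + y ≠ 0)
    (h1 : (x : RO O) + y ≠ 1) (h2 : (x : RO O) + y ≠ -1) (w r : RO O) (s t : ℕ) (hs : s ≤ 1)
    (ht : t ≤ 1) (h : w * (x : RO O) ^ s * (y : RO O) ^ t +
      r * (1 - (x : RO O)) * (1 - (y : RO O)) = 0) :
    (w = r → s + t = 1 → r = 0) ∧ (w = 0 → r = 0) ∧ (r = 0 → w = 0) ∧
      (r ≠ 0 → w + (-1) ^ (s + t) * r ≠ 0) := by
  have h' : w * (x : RO O) ^ s * (y : RO O) ^ t - r * ((x : RO O) + y) = 0 := by
    linear_combination h - r * hxy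
  refine ⟨?_, ?_, ?_, ?_⟩
  · rintro rfl hst
    rcases Nat.le_one_iff_eq_zero_or_eq_one.mp hs with rfl | rfl
    · have : t = 1 := by omega
      subst this
      have h3 : w * (x : RO O) = 0 := by linear_combination -h'
      exact (mul_eq_zero.mp h3).resolve_right x.ne_zero
    · have : t = 0 := by omega
      subst this
      have h3 : w * (y : RO O) = 0 := by linear_combination -h'
      exact (mul_eq_zero.mp h3).resolve_right y.ne_zero
  · rintro rfl
    have h3 : r * ((x : RO O) + y) = 0 := by linear_combination -h'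
    exact (mul_eq_zero.mp h3).resolve_right h0
  · rintro rfl
    have h3 : w * ((x : RO O) ^ s * (y : RO O) ^ t) = 0 := by linear_combination h'
    exact (mul_eq_zero.mp h3).resolve_right
      (mul_ne_zero (pow_ne_zero _ x.ne_zero) (pow_ne_zero _ y.ne_zero))
  · intro hr hwr
    have hw : w = -((-1) ^ (s + t) * r) := by linear_combination hwr
    rw [hw] at h'
    rcases Nat.le_one_iff_eq_zero_or_eq_one.mp hs with rfl | rfl <;>
      rcases Nat.le_one_iff_eq_zero_or_eq_one.mp ht with rfl | rfl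
    · have h3 : r * ((x : RO O) + y - -1) = 0 := by linear_combination -h'
      exact h2 (sub_eq_zero.mp ((mul_eq_zero.mp h3).resolve_left hr))
    · have h3 : r * (x : RO O) = 0 := by linear_combination -h'
      exact x.ne_zero ((mul_eq_zero.mp h3).resolve_left hr)
    · have h3 : r * (y : RO O) = 0 := by linear_combination -h'
      exact y.ne_zero ((mul_eq_zero.mp h3).resolve_left hr)
    · have h3 : r * ((x : RO O) + y - 1) = 0 := by linear_combination -h' - r * hxy
      exact h1 (sub_eq_zero.mp ((mul_eq_zero.mp h3).resolve_left hr))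

/-- (VFR) for a closing `(x, y)` with `x y = -1`. -/
theorem vfrg (f1 : F1S) (km : KmuS) (rk' : RkS) {phi : L →+ (P → ℤ)} {D : AO O L} {S T : L}
    {eS eT : (RO O)ˣ} {i j : P} (m : Mut phi D S T eS eT i j) (rS : Ray D S) (rT : Ray D T)
    (hrk : rk {b | Ray D b} = Module.finrank ℤ L)
    (ux uz : (RO O)ˣ) (hxy : (ux : RO O) * uz = -1) (hs0 : (ux : RO O) + uz ≠ 0)
    (hs1 : (ux : RO O) + uz ≠ 1) (hs2 : (ux : RO O) + uz ≠ -1)
    (om om' : (RO O)ˣ) (hom : (om : RO O) ^ 2 - om + 1 = 0) (hom' : (om : RO O) + om' = 1)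
    (hcj : ∀ a, phi a i = 0 → phi a j = 0 →
      dco D S T (eS * om) (eT * om) a = 0 → dco D S T (eS * om') (eT * om') a = 0)
    (hT2 : rk (supp (ccl m (eS * om) (eT * om))) + 2 < Module.finrank ℤ L)
    (eb : L → (RO O)ˣ) (heb : ∀ b, Ray D b →
      (b ∉ US eS S D → S ∉ US (eb b) b D) ∧ (b ∉ US eT T D → T ∉ US (eb b) b D)) :
    rk (supp (ccl m (eS * ux) (eT * uz))) + 2 = Module.finrank ℤ L ∧
    ∃ b : L, Ray D b ∧ (∀ p, phi b p = 0 ∨ (phi S p = 0 ∧ phi T p = 0)) ∧
      (eb b : RO O) * D.coeff b = eS * D.coeff S ∧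
      ((b ∈ US eS S D ∧ b ∉ US eT T D ∧
          dco D S T (eS * ux) (eT * uz) b = -((uz : RO O) * D.coeff b)) ∨
       (b ∈ US eT T D ∧ b ∉ US eS S D ∧
          dco D S T (eS * ux) (eT * uz) b = -((ux : RO O) * D.coeff b))) := by
  obtain ⟨mu, hmu0, hmS, hmT, hmu⟩ := kill km rk' m _ _ hT2
  obtain ⟨b, rb, hmb⟩ : ∃ b, Ray D b ∧ mu b ≠ 0 := by
    by_contra h
    push Not at h
    exact hmu0 (zero_of_rk rk' mu _ hrk h)
  obtain ⟨lam, hlb, hlam⟩ := rb.2.2
  have hSb : S ≠ b := by rintro rfl; exact hmb hmS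
  have hTb : T ≠ b := by rintro rfl; exact hmb hmT
  have hlS : 0 < lam S := hlam S rS.1 m.S0 hSb
  have hlT : 0 < lam T := hlam T rT.1 m.swap.S0 hTb
  -- real pattern
  have hpat : ∀ a, phi a i = 0 → phi a j = 0 → mu a ≠ 0 → ∀ (w r : RO O) (s t : ℕ), s ≤ 1 → t ≤ 1 →
      (∀ x y : RO O, dco D S T (eS * x) (eT * y) a = w * x ^ s * y ^ t + r * (1 - x) * (1 - y)) →
      (w = 0 ∧ r = 0) ∨ (w = r ∧ s + t = 1) := by
    intro a hi hj hma w r s t hs ht hv
    have h1 := hmu a hi hj hma
    rw [Units.val_mul, Units.val_mul] at h1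
    have h2 := hcj a hi hj h1
    rw [hv] at h1 h2
    exact pat hom hom' hs ht h1 h2
  -- the class of b
  obtain ⟨a, hi, hj, hval, hz⟩ := base m b rb.1
  have hma : mu a ≠ 0 := by rw [hval mu hmS hmT]; exact hmb
  obtain ⟨w, r, s, t, hs, ht, h00, h10, h01, h11, hU, hdis⟩ := nf f1 m a hi hj
  have hv : ∀ x y : RO O, dco D S T (eS * x) (eT * y) a = w * x ^ s * y ^ t + r * (1 - x) * (1 - y) := by
    intro x y
    have e1 : dco D S T (eS * x) (eT * y) a = D.coeff a + x * ((eS : RO O) * D.coeff (a + S)) +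
        y * ((eT : RO O) * D.coeff (a + T)) +
        x * y * ((eS : RO O) * (eT : RO O) * D.coeff (a + S + T)) := by
      rw [dco]; ring
    rw [e1, h00, h10, h01, h11]
    rcases Nat.le_one_iff_eq_zero_or_eq_one.mp hs with rfl | rfl <;>
      rcases Nat.le_one_iff_eq_zero_or_eq_one.mp ht with rfl | rfl <;> simp <;> ring
  have hr0 : r ≠ 0 := by
    intro hr
    have hw : w = 0 := by
      rcases hpat a hi hj hma w r s t hs ht hv with h | h
      · exact h.1
      · rw [h.1, hr]
    apply hz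
    subst hw hr
    have z1 : (eS : RO O) * D.coeff (a + S) = 0 := by rw [h10]; simp
    have z2 : (eT : RO O) * D.coeff (a + T) = 0 := by rw [h01]; simp
    have z3 : (eS : RO O) * (eT : RO O) * D.coeff (a + S + T) = 0 := by rw [h11]; simp
    exact ⟨by rw [h00]; simp, (mul_eq_zero.mp z1).resolve_left eS.ne_zero,
      (mul_eq_zero.mp z2).resolve_left eT.ne_zero,
      (mul_eq_zero.mp z3).resolve_left (mul_ne_zero eS.ne_zero eT.ne_zero)⟩
  obtain ⟨hwr, hst⟩ : w = r ∧ s + t = 1 := by
    rcases hpat a hi hj hma w r s t hs ht hv with h | h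
    · exact absurd h.2 hr0
    · exact h
  have hDa : D.coeff a = r := by
    rw [h00, if_neg (by omega), zero_add]
  have ha0 : a ≠ 0 := by
    rintro rfl
    exact hma (map_zero mu)
  have hasupp : a ∈ supp D := by
    change D.coeff a ≠ 0
    rw [hDa]; exact hr0
  have hab : a = b := by
    by_contra hne
    have hla : 0 < lam a := hlam a hasupp ha0 hne
    -- b is a + s S + t T
    have hlb' : lam a = lam b - phi b i • lam S - phi b j • lam T := by
      by_contra hcon
      -- use the base formula through the functional trick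
      exact hcon (by
        have hSi : phi S i = 1 := m.hS
        have hTj : phi T j = 1 := m.hT
        have hTi : phi T i = 0 := m.Tij
        have hSj : phi S j = 0 := m.swap.Tij
        -- the functional lam - (lam S) co i - (lam T) co j kills S and T
        let nu : L →+ ℤ := lam - (lam S) • co phi i - (lam T) • co phi j
        have n1 : nu S = 0 := by
          change lam S - (lam S) • phi S i - (lam T) • phi S j = 0
          rw [hSi, hSj]; simp
        have n2 : nu T = 0 := by
          change lam T - (lam S) • phi T i - (lam T) • phi T j = 0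
          rw [hTi, hTj]; simp
        have n3 := hval nu n1 n2
        have n4 : nu a = lam a := by
          change lam a - (lam S) • phi a i - (lam T) • phi a j = lam a
          rw [hi, hj]; simp
        have n5 : nu b = lam b - (lam S) • phi b i - (lam T) • phi b j := rfl
        rw [n4, n5] at n3
        rw [n3]
        simp only [smul_eq_mul]
        ring)
    rw [hlb, smul_eq_mul, smul_eq_mul] at hlb'
    rcases m.bin b rb.1 i with h1 | h1 <;> rcases m.bin b rb.1 j with h2 | h2 <;>
      rw [h1, h2] at hlb' <;> linarith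
  subst hab
  have hdis' := hdis hr0
  -- the mutual partner
  have hB : ((a ∈ US eS S D ∧ a ∉ US eT T D ∧
          dco D S T (eS * ux) (eT * uz) a = -((uz : RO O) * D.coeff a)) ∨
       (a ∈ US eT T D ∧ a ∉ US eS S D ∧
          dco D S T (eS * ux) (eT * uz) a = -((ux : RO O) * D.coeff a))) := by
    obtain ⟨u1, u2⟩ := hU (by rw [hwr]; exact hr0)
    rcases Nat.le_one_iff_eq_zero_or_eq_one.mp hs with rfl | rfl
    · have ht1 : t = 1 := by omega
      subst ht1
      rw [zero_smul, add_zero, one_smul] at u1 u2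
      right
      refine ⟨?_, ?_, ?_⟩
      · have := Submodule.sub_mem _ u2 (S_mem eT T D)
        rwa [add_sub_cancel_right] at this
      · intro h
        apply m.TU
        have := Submodule.sub_mem _ u1 h
        rwa [add_sub_cancel_left] at this
      · rw [hv, hDa, hwr]
        linear_combination r * hxy
    · have ht1 : t = 0 := by omega
      subst ht1
      rw [zero_smul, add_zero, one_smul] at u1 u2
      left
      refine ⟨?_, ?_, ?_⟩
      · have := Submodule.sub_mem _ u1 (S_mem eS S D)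
        rwa [add_sub_cancel_right] at this
      · intro h
        apply m.SU
        have := Submodule.sub_mem _ u2 h
        rwa [add_sub_cancel_left] at this
      · rw [hv, hDa, hwr]
        linear_combination r * hxy
  have hbin := m.bin a hasupp
  have hcoef : (eb a : RO O) * D.coeff a = eS * D.coeff S := by
    rcases hB with h | h
    · have h1 := (heb a rb).2 h.2.1
      rw [same f1 m.inj m.bin hbin m.bT ha0 m.swap.S0 (fun p => (hdis' p).imp id And.right) h1 h.2.1,
        same f1 m.inj m.bin m.bS m.bT m.S0 m.swap.S0 m.dis m.TU m.SU]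
    · have h1 := (heb a rb).1 h.2.1
      rw [same f1 m.inj m.bin hbin m.bS ha0 m.S0 (fun p => (hdis' p).imp id And.left) h1 h.2.1]
  refine ⟨?_, a, rb, hdis', hcoef, hB⟩
  -- full rank
  have hk2 := rk_ker2 rk' m
  have hle := (rk' (Ker (co (phK phi (co phi i)) j)) (Ker (co (phK phi (co phi i)) j))).2.2.1
    (supp (ccl m (eS * ux) (eT * uz)))
  by_contra hne
  obtain ⟨nu, hnu0, hnS, hnT, hnu⟩ := kill km rk' m (eS * ux) (eT * uz) (by omega)
  apply hnu0
  apply zero_of_rk rk' nu {b | Ray D b} hrk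
  intro c hc
  refine core f1 m (ux : RO O) (uz : RO O) mu nu a (eb a) hasupp ha0 ?_ hmS hmT hma ?_ ?_ hnS
    hnT ?_ c hc.1
  · rcases hB with h | h
    · exact Or.inr ((heb a rb).2 h.2.1)
    · exact Or.inl ((heb a rb).1 h.2.1)
  · intro a' hi' hj' hma' h1
    obtain ⟨w', r', s', t', hs', ht', hv', hz', _, _⟩ := nfv f1 m a' hi' hj'
    rw [hv'] at h1
    obtain ⟨x1, x2, _, _⟩ := xzg hxy hs0 hs1 hs2 w' r' s' t' hs' ht' h1
    rcases hpat a' hi' hj' hma' w' r' s' t' hs' ht' hv' with h | h
    · exact hz' h.1 h.2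
    · have h3 := x1 h.1 h.2
      exact hz' (h.1.trans h3) h3
  · intro a' hi' hj' h1
    obtain ⟨w', r', s', t', hs', ht', hv', hz', hn', _⟩ := nfv f1 m a' hi' hj'
    rw [hv'] at h1
    obtain ⟨_, _, x3, x4⟩ := xzg hxy hs0 hs1 hs2 w' r' s' t' hs' ht' h1
    by_cases hr' : r' = 0
    · exact Or.inl (hz' (x3 hr') hr')
    · exact Or.inr (hn' hr' (x4 hr'))
  · intro a' hi' hj' hne'
    have := hnu a' hi' hj' hne'
    rwa [Units.val_mul, Units.val_mul] at this


end Gen

end Pool.Agent.B5.H47

namespace Pool.Agent.B5.E4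

open scoped LaurentPolynomial
open AddMonoidAlgebra Pool.Agent.B5.H47

/-- Row E4_VS2. -/
theorem vs2 (f1 : F1S) (e2s : E2S) (km : KmuS) (rk' : RkS) (mco : McoS) : Vs2S := by
  intro O _ _ _ _ P L _ _ _ _ _ phi D eta S0 S1 w t0 t1 sg hD htwo hDr her h hm0 hm1 hw hsg ht0 ht1 X
    hdrop
  have m := toMut mco hD.inj hD.bin h X
  have hco := mco O P L phi D S0 S1 (eta S0) (eta S1) hD.inj hD.bin h
  have hk2 := rk_ker2 rk' m
  have hrk := (e2s O P L phi D hD htwo).2.2.2.2.1
  -- the other root
  have hww : (w : RO O) * (1 - w) = 1 := by linear_combination -hw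
  let w' : (RO O)ˣ := ⟨1 - w, w, by rw [mul_comm]; exact hww, hww⟩
  have hw' : ((w' : (RO O)ˣ) : RO O) = 1 - w := rfl
  have hTT : (LaurentPolynomial.T (-1) : RO O) * LaurentPolynomial.T 1 = 1 := by
    rw [← LaurentPolynomial.T_add]; simp
  have hCC : (LaurentPolynomial.C sg : RO O) * LaurentPolynomial.C sg = 1 := by
    rw [← map_mul, hsg, map_one]
  have hxy : (t0 : RO O) * t1 = -1 := by
    rw [ht0, ht1]
    linear_combination (-(LaurentPolynomial.T (-1) * LaurentPolynomial.T 1)) * hCC - hTT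
  have hsg0 : sg ≠ 0 := by
    rintro rfl
    rw [mul_zero] at hsg
    exact zero_ne_one hsg
  have hsum : ∀ c : O, (t0 : RO O) + t1 ≠ LaurentPolynomial.C c := by
    intro c hc
    have e1 : (t0 : RO O) + t1 - LaurentPolynomial.C c =
        (AddMonoidAlgebra.single 1 sg - AddMonoidAlgebra.single (-1) sg -
          AddMonoidAlgebra.single 0 c : RO O) := by
      rw [ht0, ht1, LaurentPolynomial.single_eq_C_mul_T, LaurentPolynomial.single_eq_C_mul_T,
        LaurentPolynomial.single_eq_C_mul_T, LaurentPolynomial.T_zero, mul_one]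
      ring
    rw [hc, sub_self] at e1
    have h2 := congrArg (fun p : RO O => p.coeff (-1)) e1
    simp only [coeff_sub, coeff_single, Finsupp.sub_apply, coeff_zero, Finsupp.zero_apply] at h2
    rw [Finsupp.single_eq_of_ne (by norm_num), Finsupp.single_eq_same,
      Finsupp.single_eq_of_ne (by norm_num)] at h2
    apply hsg0
    linear_combination h2
  rw [dc_ccl X m] at hdrop ⊢
  have hle := (rk' (Ker (co (phK phi (co phi X.i0)) X.i1))
      (Ker (co (phK phi (co phi X.i0)) X.i1))).2.2.1 (supp (ccl m (eta S0 * w) (eta S1 * w)))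
  obtain ⟨hfull, b, rb, hdis, hcoef, hval⟩ := vfrg f1 km rk' m h.r0 h.r1 hrk t0 t1 hxy
    (by have := hsum 0; rwa [map_zero] at this) (by have := hsum 1; rwa [map_one] at this)
    (by have := hsum (-1); rwa [map_neg, map_one] at this) w w'
    (by linear_combination hw) (by rw [hw']; ring)
    (fun a _ _ h0 => cj_of_real (fun a => cjR_of_RlR (hDr a)) (cjR_of_RlR (her S0))
      (cjR_of_RlR (her S1)) (by rw [hw']; exact cj_root hw) a h0)
    (by omega) eta (fun b hb => ⟨fun h1 => (hm0 b hb h1).m1, fun h1 => (hm1 b hb h1).m1⟩)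
  refine ⟨hfull, ?_, ?_⟩
  · have hS0i : phi S0 X.i0 = 1 := X.h0
    have hS1j : phi S1 X.i1 = 1 := m.hT
    have hbi : phi b X.i0 = 0 := by
      rcases hdis X.i0 with h | h
      · exact h
      · omega
    have hbj : phi b X.i1 = 0 := by
      rcases hdis X.i1 with h | h
      · exact h
      · omega
    have hk1 : (⟨b, hbi⟩ : Ker (co phi X.i0)) ∈ Ker X.k1 := by
      rw [mem_Ker, X.hk]
      exact hbj
    refine ⟨⟨⟨b, hbi⟩, hk1⟩, ?_, ?_⟩
    · intro h0
      apply rb.2.1
      have h1 := congrArg (fun x : Ker X.k1 => ((x : Ker (co phi X.i0)) : L)) h0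
      exact h1
    · rw [dc_coeff hD.bin m.dis]
      have hDb : D.coeff b = (((eta b)⁻¹ * eta S0 : (RO O)ˣ) : RO O) * D.coeff S0 := by
        rw [Units.val_mul, mul_assoc, ← hcoef, ← mul_assoc, Units.inv_mul, one_mul]
      rcases hval with ⟨_, _, hv⟩ | ⟨_, _, hv⟩
      · refine ⟨-t1 * ((eta b)⁻¹ * eta S0), ?_⟩
        have e1 : dco D S0 S1 ((eta S0 * t0 : (RO O)ˣ) : RO O) ((eta S1 * t1 : (RO O)ˣ) : RO O)
            b = -((t1 : RO O) * D.coeff b) := by
          rw [Units.val_mul, Units.val_mul]; exact hv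
        change dco D S0 S1 ((eta S0 * t0 : (RO O)ˣ) : RO O) ((eta S1 * t1 : (RO O)ˣ) : RO O)
          b = _
        rw [e1, hDb, Units.val_mul (-t1), Units.val_neg]
        ring
      · refine ⟨-t0 * ((eta b)⁻¹ * eta S0), ?_⟩
        have e1 : dco D S0 S1 ((eta S0 * t0 : (RO O)ˣ) : RO O) ((eta S1 * t1 : (RO O)ˣ) : RO O)
            b = -((t0 : RO O) * D.coeff b) := by
          rw [Units.val_mul, Units.val_mul]; exact hv
        change dco D S0 S1 ((eta S0 * t0 : (RO O)ˣ) : RO O) ((eta S1 * t1 : (RO O)ˣ) : RO O)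
          b = _
        rw [e1, hDb, Units.val_mul (-t0), Units.val_neg]
        ring
  · rw [dc_coeff hD.bin m.dis]
    have e1 : (((0 : Ker X.k1) : Ker (co phi X.i0)) : L) = 0 := rfl
    rw [e1, dco, zero_add, zero_add, Units.val_mul, Units.val_mul]
    linear_combination (t1 : RO O) * hco.2.1 + ((t0 : RO O) * t1) * hco.2.2.1 -
      ((eta S0 : RO O) * D.coeff S0) * hxy + ((eta S0 : RO O) * D.coeff S0) * (ht0 + ht1)

end Pool.Agent.B5.E4
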